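import Mathlib
import Pool.Agent.Helper59.EJ.FinalM

set_option autoImplicit false

namespace Pool.Agent.Results.MP_3a7e96_al.FullAnswer

open Pool.Agent.Helper98.Engel

universe u

/-- Let `G` be a group of finite abelian subgroup rank: every abelian subgroup has finite rank (in
particular, let `G` be a group of finite rank). Then the left Engel elements form a subgroup `L`,
which is normal and locally nilpotent and contains every locally nilpotent normal subgroup, that is,
`L` is the Hirsch-Plotkin radical of `G`. -/
theorem result (G : Type u) [Group G]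
    (hrk : ∀ A : Subgroup G, (∀ a ∈ A, ∀ b ∈ A, a * b = b * a) → FinRank A) :
    ∃ L : Subgroup G, (L : Set G) = {g : G | IsLeftEngel g} ∧ L.Normal ∧ LocallyNilpotent L ∧
      ∀ N : Subgroup G, N.Normal → LocallyNilpotent N → N ≤ L := by
  obtain ⟨L, h1, h2, h3, h4⟩ := Pool.Agent.Helper59.EJ.full_final (G := G) hrk
  exact ⟨L, Set.ext h1, h2, h3, h4⟩

end Pool.Agent.Results.MP_3a7e96_al.FullAnswer
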